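import Pool.Agent.Lib.MP_688fd0_co.LIN.Iface

/-!
LIN, group D: BASE, GEO, MONO, LINE (helper89).
-/

set_option autoImplicit false
set_option linter.unusedSectionVars false

namespace Pool.Agent.Lib.MP_688fd0_co.LIN.H89

open Classical
open Pool.Agent.Lib.MP_688fd0_co.LPV (reach reach_add reach_one reach_mono reach_map reach_symm gball mem_gball
  Homog card_gball nb)

universe u

variable {V : Type u} [Fintype V] {G : SimpleGraph V}

lemma reach_of_walk {x y : V} (p : G.Walk x y) : reach G p.length x y := by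
  induction p with
  | nil => rfl
  | cons h p ih =>
    rw [SimpleGraph.Walk.length_cons, Nat.add_comm]
    exact reach_add.2 ⟨_, reach_one.2 (Or.inr h), ih⟩

lemma reach_iff (hc : G.Connected) {r : ℕ} {x y : V} : reach G r x y ↔ G.dist x y ≤ r := by
  constructor
  · intro h
    induction r generalizing y with
    | zero =>
      change x = y at h
      subst h
      simp
    | succ r ih =>
      obtain ⟨z, h1, h2⟩ := h
      rcases h2 with h2 | h2
      · subst h2
        exact (ih h1).trans (Nat.le_succ r)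
      · have h3 := hc.dist_triangle (u := x) (v := z) (w := y)
        have h4 : G.dist z y = 1 := SimpleGraph.dist_eq_one_iff_adj.2 h2
        have h5 := ih h1
        omega
  · intro h
    obtain ⟨p, hp⟩ := hc.exists_walk_length_eq_dist x y
    have := reach_of_walk p
    rw [hp] at this
    exact reach_mono h this

lemma mem_bl {x y : V} {r : ℕ} : y ∈ bl G x r ↔ G.dist x y ≤ r := by simp [bl]

lemma bl_eq (hc : G.Connected) (x : V) (r : ℕ) : bl G x r = gball G x r := by
  ext y
  rw [mem_bl, mem_gball, reach_iff hc]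

lemma card_bl (hG : VT G) (x : V) (r : ℕ) : (bl G x r).card = bn G r := by
  unfold bn
  have h : ∀ y ∈ (Finset.univ : Finset V), (bl G y r).card = (bl G x r).card := by
    intro y _
    rw [bl_eq hG.conn, bl_eq hG.conn]
    exact card_gball hG.tr _ _ _
  apply le_antisymm
  · exact Finset.le_sup (f := fun x => (bl G x r).card) (Finset.mem_univ x)
  · exact Finset.sup_le (fun y hy => (h y hy).le)

lemma bl_mono (x : V) {r s : ℕ} (h : r ≤ s) : bl G x r ⊆ bl G x s := by
  intro y hy
  rw [mem_bl] at *
  exact hy.trans h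

lemma bn_mono (hG : VT G) {r s : ℕ} (h : r ≤ s) : bn G r ≤ bn G s := by
  obtain ⟨x⟩ := hG.conn.nonempty
  rw [← card_bl hG x r, ← card_bl hG x s]
  exact Finset.card_le_card (bl_mono x h)

lemma bn_zero (hG : VT G) : bn G 0 = 1 := by
  obtain ⟨x⟩ := hG.conn.nonempty
  rw [← card_bl hG x 0, Finset.card_eq_one]
  refine ⟨x, ?_⟩
  ext y
  rw [mem_bl, Finset.mem_singleton, Nat.le_zero, hG.conn.dist_eq_zero_iff]
  exact eq_comm

lemma bn_pos (hG : VT G) (r : ℕ) : 1 ≤ bn G r := by
  rw [← bn_zero hG]
  exact bn_mono hG (Nat.zero_le _)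

theorem base : BaseStatement.{u} := by
  intro V _ G hG
  refine ⟨card_bl hG, ?_, ?_, bn_zero hG, fun r s h => bn_mono hG h, ?_, ?_⟩
  · intro W s hW
    obtain ⟨o⟩ := hG.conn.nonempty
    have h := (Homog.ofVT hG.tr o).small_iso W s (by
      change 2 * W.card ≤ (gball G o s).card
      rw [← bl_eq hG.conn, card_bl hG]
      exact hW)
    refine h.trans (le_of_eq ?_)
    congr 2
    ext y
    simp only [bd, Finset.mem_filter, Finset.mem_univ, true_and]
    rfl
  · intro d hd r
    obtain ⟨x⟩ := hG.conn.nonempty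
    rw [← card_bl hG x (r + 1), ← card_bl hG x r]
    have h1 : bl G x (r + 1) ⊆ (bl G x r).biUnion
        (fun z => insert z (Finset.univ.filter (fun w => G.Adj z w))) := by
      intro y hy
      rw [mem_bl, ← reach_iff hG.conn] at hy
      obtain ⟨z, h1, h2⟩ := hy
      rw [reach_iff hG.conn] at h1
      refine Finset.mem_biUnion.2 ⟨z, mem_bl.2 h1, ?_⟩
      rcases h2 with h2 | h2
      · subst h2
        exact Finset.mem_insert_self _ _
      · exact Finset.mem_insert_of_mem (by simpa using h2)
    calc _ ≤ _ := Finset.card_le_card h1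
      _ ≤ ∑ z ∈ bl G x r, (insert z (Finset.univ.filter (fun w => G.Adj z w))).card := Finset.card_biUnion_le
      _ ≤ ∑ z ∈ bl G x r, (d + 1) := by
        apply Finset.sum_le_sum
        intro z _
        exact (Finset.card_insert_le _ _).trans (Nat.succ_le_succ (hd z))
      _ = _ := by rw [Finset.sum_const, smul_eq_mul, Nat.mul_comm]
  · intro D hD
    obtain ⟨x⟩ := hG.conn.nonempty
    rw [← card_bl hG x D, ← Finset.card_univ]
    congr 1
    ext y
    simp [mem_bl, hD.1 x y]
  · obtain ⟨x0⟩ := hG.conn.nonempty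
    obtain ⟨p, _, hp⟩ := Finset.exists_max_image (Finset.univ : Finset (V × V)) (fun p => G.dist p.1 p.2)
      ⟨(x0, x0), Finset.mem_univ _⟩
    exact ⟨G.dist p.1 p.2, fun x y => hp (x, y) (Finset.mem_univ _), p.1, p.2, rfl⟩

lemma exists_geo (hc : G.Connected) (x y : V) :
    ∃ γ : ℕ → V, γ 0 = x ∧ γ (G.dist x y) = y ∧ Geo G γ (G.dist x y) := by
  obtain ⟨p, hp⟩ := hc.exists_walk_length_eq_dist x y
  have key : ∀ i j, i ≤ j → j ≤ p.length → G.dist (p.getVert i) (p.getVert j) ≤ j - i := by
    intro i j hij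
    induction j, hij using Nat.le_induction with
    | base => intro _; simp
    | succ j hij ih =>
      intro hj
      have h1 := ih (by omega)
      have h2 : G.dist (p.getVert j) (p.getVert (j + 1)) = 1 :=
        SimpleGraph.dist_eq_one_iff_adj.2 (p.adj_getVert_succ (by omega))
      have h3 := hc.dist_triangle (u := p.getVert i) (v := p.getVert j) (w := p.getVert (j + 1))
      omega
  refine ⟨p.getVert, p.getVert_zero, by rw [← hp]; exact p.getVert_length, ?_⟩
  intro i j hij hj
  rw [← hp] at hj
  apply le_antisymm (key i j hij hj)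
  have h1 := key 0 i (Nat.zero_le _) (hij.trans hj)
  have h2 := key j p.length hj le_rfl
  have h3 := hc.dist_triangle (u := p.getVert 0) (v := p.getVert i) (w := p.getVert j)
  have h4 := hc.dist_triangle (u := p.getVert 0) (v := p.getVert j) (w := p.getVert p.length)
  rw [p.getVert_length, p.getVert_zero] at h4
  rw [p.getVert_zero] at h1 h3
  rw [p.getVert_length] at h2
  omega

lemma dist_map (φ : G ≃g G) (x y : V) : G.dist (φ x) (φ y) = G.dist x y := by
  by_cases h : G.Reachable x y
  · apply le_antisymm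
    · obtain ⟨p, hp⟩ := h.exists_walk_length_eq_dist
      rw [← hp]
      have := SimpleGraph.dist_le (p.map φ.toHom)
      simpa using this
    · have h' : G.Reachable (φ x) (φ y) := h.map φ.toHom
      obtain ⟨p, hp⟩ := h'.exists_walk_length_eq_dist
      rw [← hp]
      have := SimpleGraph.dist_le (p.map φ.symm.toHom)
      simpa using this
  · rw [SimpleGraph.dist_eq_zero_of_not_reachable h, SimpleGraph.dist_eq_zero_of_not_reachable]
    intro h'
    apply h
    have := h'.map φ.symm.toHom
    simpa using this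

theorem geo : GeoStatement.{u} := by
  intro V _ G hG D hD
  refine ⟨exists_geo hG.conn, ?_⟩
  intro L k hL hk o
  obtain ⟨x, y, hxy⟩ := hD.2
  obtain ⟨γ, _, _, hγ⟩ := exists_geo hG.conn x y
  rw [hxy] at hγ
  obtain ⟨φ, hφ⟩ := hG.tr (γ k) o
  refine ⟨fun i => φ (γ i), hφ, ?_⟩
  intro i j hij hj
  change G.dist (φ (γ i)) (φ (γ j)) = j - i
  rw [dist_map]
  exact hγ i j hij (hj.trans hL)

/-- packing disjoint balls -/
lemma pack (hG : VT G) (S : Finset V) (o : V) (R r : ℕ)
    (hsep : ∀ a ∈ S, ∀ b ∈ S, a ≠ b → 2 * r + 1 ≤ G.dist a b) (hin : ∀ a ∈ S, G.dist o a ≤ R) :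
    S.card * bn G r ≤ bn G (r + R) := by
  have h1 : (S.biUnion (fun a => bl G a r)).card = ∑ a ∈ S, (bl G a r).card := by
    apply Finset.card_biUnion
    intro a ha b hb hab
    rw [Function.onFun, Finset.disjoint_left]
    intro y hy hy'
    rw [mem_bl] at hy hy'
    have h2 := hG.conn.dist_triangle (u := a) (v := y) (w := b)
    have h3 := hsep a ha b hb hab
    rw [SimpleGraph.dist_comm (u := b)] at hy'
    omega
  have h2 : S.biUnion (fun a => bl G a r) ⊆ bl G o (r + R) := by
    intro y hy
    obtain ⟨a, ha, hy⟩ := Finset.mem_biUnion.1 hy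
    rw [mem_bl] at hy ⊢
    have h3 := hG.conn.dist_triangle (u := o) (v := a) (w := y)
    have h4 := hin a ha
    omega
  rw [← card_bl hG o (r + R)]
  calc S.card * bn G r = ∑ a ∈ S, (bl G a r).card := by
        rw [Finset.sum_congr rfl (fun a _ => card_bl hG a r), Finset.sum_const, smul_eq_mul]
    _ = _ := h1.symm
    _ ≤ _ := Finset.card_le_card h2

/-- distances of two points of a geodesic -/
lemma geo_dist {γ : ℕ → V} {L : ℕ} (h : Geo G γ L) {i j : ℕ} (hi : i ≤ L) (hj : j ≤ L) :
    G.dist (γ i) (γ j) = (i - j) + (j - i) := by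
  rcases le_total i j with hij | hij
  · rw [h i j hij hj]; omega
  · rw [SimpleGraph.dist_comm, h j i hij hi]; omega

theorem mono : MonoStatement.{u} := by
  intro V _ G hG D hD r r' hr hr'
  by_cases hsmall : r' ≤ 2 * r
  · exact Nat.mul_le_mul (by omega) (bn_mono hG hr)
  obtain ⟨x⟩ := hG.conn.nonempty
  set L := min D (2 * (r' - r)) with hL
  have hL1 : r' ≤ L := by rw [hL]; exact le_min hr' (by omega)
  have hL2 : L ≤ D := min_le_left _ _
  have hL3 : L ≤ 2 * (r' - r) := min_le_right _ _
  obtain ⟨γ, _, hγ⟩ := (geo V G hG D hD).2 L 0 hL2 (Nat.zero_le _) x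
  set q := L / (2 * r + 1) with hq
  have hq1 : q * (2 * r + 1) ≤ L := Nat.div_mul_le_self _ _
  have hq2 : L < (2 * r + 1) * (q + 1) := Nat.lt_mul_div_succ L (by omega)
  have hle : ∀ i ∈ Finset.range (q + 1), i * (2 * r + 1) ≤ L := by
    intro i hi
    rw [Finset.mem_range] at hi
    exact (Nat.mul_le_mul_right _ (by omega)).trans hq1
  have hdist : ∀ i ∈ Finset.range (q + 1), ∀ j ∈ Finset.range (q + 1), i ≠ j →
      2 * r + 1 ≤ G.dist (γ (i * (2 * r + 1))) (γ (j * (2 * r + 1))) := by
    intro i hi j hj hij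
    rw [geo_dist hγ (hle i hi) (hle j hj), ← Nat.sub_mul, ← Nat.sub_mul, ← Nat.add_mul]
    exact Nat.le_mul_of_pos_left _ (by omega)
  have hinj : Set.InjOn (fun i => γ (i * (2 * r + 1))) (Finset.range (q + 1) : Finset ℕ) := by
    intro i hi j hj hij
    by_contra hne
    have h := hdist i hi j hj hne
    simp only at hij
    rw [hij, SimpleGraph.dist_self] at h
    omega
  have h := pack hG ((Finset.range (q + 1)).image (fun i => γ (i * (2 * r + 1)))) (γ (L / 2)) (r' - r) r (by
    intro a ha b hb hab
    obtain ⟨i, hi, rfl⟩ := Finset.mem_image.1 ha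
    obtain ⟨j, hj, rfl⟩ := Finset.mem_image.1 hb
    exact hdist i hi j hj (fun h => hab (by rw [h]))) (by
    intro a ha
    obtain ⟨i, hi, rfl⟩ := Finset.mem_image.1 ha
    rw [geo_dist hγ (Nat.div_le_self _ _) (hle i hi)]
    have := hle i hi
    omega)
  rw [Finset.card_image_of_injOn hinj, Finset.card_range, Nat.add_sub_cancel' hr] at h
  calc (r' + 1) * bn G r ≤ (4 * (r + 1) * (q + 1)) * bn G r := by
        apply Nat.mul_le_mul_right
        calc r' + 1 ≤ L + 1 := by omega
          _ ≤ (2 * r + 1) * (q + 1) := hq2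
          _ ≤ _ := Nat.mul_le_mul_right _ (by omega)
    _ = 4 * (r + 1) * ((q + 1) * bn G r) := by ring
    _ ≤ _ := Nat.mul_le_mul_left _ h

theorem line : LineStatement.{u} := by
  intro V _ G hG r w hw hlin γ s hγ y hy
  by_contra hcon
  push Not at hcon
  have hle : ∀ i ∈ Finset.range 31, i * w ≤ 30 * w := by
    intro i hi
    rw [Finset.mem_range] at hi
    exact Nat.mul_le_mul_right _ (by omega)
  have hd : ∀ i ∈ Finset.range 31, ∀ j ∈ Finset.range 31,
      G.dist (γ (s + i * w)) (γ (s + j * w)) = ((i - j) + (j - i)) * w := by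
    intro i hi j hj
    have := geo_dist hγ (hle i hi) (hle j hj)
    rw [this, ← Nat.sub_mul, ← Nat.sub_mul, ← Nat.add_mul]
  have hdist : ∀ i ∈ Finset.range 31, ∀ j ∈ Finset.range 31, i ≠ j →
      2 * r + 1 ≤ G.dist (γ (s + i * w)) (γ (s + j * w)) := by
    intro i hi j hj hij
    rw [hd i hi j hj, ← hw]
    exact Nat.le_mul_of_pos_left _ (by omega)
  have hinj : Set.InjOn (fun i => γ (s + i * w)) (Finset.range 31 : Finset ℕ) := by
    intro i hi j hj hij
    by_contra hne
    have h := hdist i hi j hj hne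
    simp only at hij
    rw [hij, SimpleGraph.dist_self] at h
    omega
  have hy1 : ∀ i ∈ Finset.range 31, 2 * r + 1 ≤ G.dist y (γ (s + i * w)) := by
    intro i hi
    rw [Finset.mem_range] at hi
    exact hcon i (by omega)
  have hynot : y ∉ (Finset.range 31).image (fun i => γ (s + i * w)) := by
    intro h
    obtain ⟨i, hi, h⟩ := Finset.mem_image.1 h
    have := hy1 i hi
    rw [h, SimpleGraph.dist_self] at this
    omega
  have h := pack hG (insert y ((Finset.range 31).image (fun i => γ (s + i * w)))) (γ (s + 15 * w)) (15 * w) r (by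
    intro a ha b hb hab
    rcases Finset.mem_insert.1 ha with rfl | ha
    · rcases Finset.mem_insert.1 hb with rfl | hb
      · exact absurd rfl hab
      · obtain ⟨j, hj, rfl⟩ := Finset.mem_image.1 hb
        exact hy1 j hj
    · obtain ⟨i, hi, rfl⟩ := Finset.mem_image.1 ha
      rcases Finset.mem_insert.1 hb with rfl | hb
      · rw [SimpleGraph.dist_comm]; exact hy1 i hi
      · obtain ⟨j, hj, rfl⟩ := Finset.mem_image.1 hb
        exact hdist i hi j hj (fun h => hab (by rw [h]))) (by
    intro a ha
    rcases Finset.mem_insert.1 ha with rfl | ha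
    · exact hy
    · obtain ⟨i, hi, rfl⟩ := Finset.mem_image.1 ha
      rw [hd 15 (by simp) i hi]
      rw [Finset.mem_range] at hi
      exact Nat.mul_le_mul_right _ (by omega))
  rw [Finset.card_insert_of_notMem hynot, Finset.card_image_of_injOn hinj, Finset.card_range] at h
  omega

end Pool.Agent.Lib.MP_688fd0_co.LIN.H89
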