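import Pool.Agent.Lib.MP_688fd0_co.LIN.Iface2
import Pool.Agent.Lib.MP_688fd0_co.LIN.H89.Base
import Pool.Agent.Lib.MP_688fd0_co.LIN.H28.Omega

/-!
LIN phase 2, modules STAY and RING.
-/

set_option autoImplicit false

namespace Pool.Agent.Lib.MP_688fd0_co.LIN.H89

open Classical
open Pool.Agent.Lib.MP_688fd0_co.LP (IsP IsPB Conn Cyc Symm cay)

universe u

/-- one application of LINE for two geodesics from the same point -/
lemma stay_near {V : Type u} [Fintype V] {G : SimpleGraph V} (hG : VT G) {r w : ℕ} (hw : w = 2 * r + 1)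
    (hlin : bn G (r + 15 * w) < 32 * bn G r) {g₁ g₂ : ℕ → V} {l₁ l₂ : ℕ} (h₁ : Geo G g₁ l₁) (h₂ : Geo G g₂ l₂)
    (h0 : g₁ 0 = g₂ 0) {c t : ℕ} (hc1 : 15 * w ≤ c) (hc2 : c + 15 * w ≤ l₁) (ht1 : t ≤ l₁) (ht2 : t ≤ l₂)
    (hd : G.dist (g₁ c) (g₂ t) ≤ 15 * w) : G.dist (g₁ t) (g₂ t) ≤ 4 * r := by
  obtain ⟨s, rfl⟩ : ∃ s, c = s + 15 * w := ⟨c - 15 * w, by omega⟩
  have hgeo : Geo G (fun i => g₁ (s + i)) (30 * w) := by
    intro i j hij hj
    have := h₁ (s + i) (s + j) (by omega) (by omega)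
    simp only
    omega
  obtain ⟨i, hi, hy⟩ := line V G hG r w hw hlin g₁ s hgeo (g₂ t) hd
  have hiw : i * w ≤ 30 * w := Nat.mul_le_mul_right _ hi
  have hu1 : s + i * w ≤ l₁ := by omega
  have hcn := hG.conn
  have e1 : G.dist (g₁ 0) (g₁ (s + i * w)) = s + i * w := H28.geo0 h₁ hu1
  have e2 : G.dist (g₂ 0) (g₂ t) = t := H28.geo0 h₂ ht2
  rw [← h0] at e2
  have t1 := hcn.dist_triangle (u := g₁ 0) (v := g₂ t) (w := g₁ (s + i * w))
  have t2 := hcn.dist_triangle (u := g₁ 0) (v := g₁ (s + i * w)) (w := g₂ t)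
  have c1 : G.dist (g₁ (s + i * w)) (g₂ t) = G.dist (g₂ t) (g₁ (s + i * w)) := SimpleGraph.dist_comm
  have t3 := hcn.dist_triangle (u := g₁ t) (v := g₁ (s + i * w)) (w := g₂ t)
  have e3 := geo_dist h₁ ht1 hu1
  omega

theorem stay : StayStatement.{u} := by
  intro V _ G hG D hD r w hw hlin hwD g₁ g₂ l₁ l₂ t h₁ h₂ h0 hl ht1 ht2 hd
  have key : ∀ t', t ≤ t' → t' + 15 * w ≤ l₁ → G.dist (g₁ t') (g₂ t') ≤ 4 * r := by
    intro t' htt
    induction t', htt using Nat.le_induction with
    | base =>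
      intro _
      exact stay_near hG hw hlin h₁ h₂ h0 ht1 ht2 (by omega) (by omega) hd
    | succ t' htt ih =>
      intro ht'
      have h3 := ih (by omega)
      have e1 := h₁ t' (t' + 1) (by omega) (by omega)
      have e2 := h₂ t' (t' + 1) (by omega) (by omega)
      have t1 := hG.conn.dist_triangle (u := g₁ (t' + 1)) (v := g₁ t') (w := g₂ (t' + 1))
      have t2 := hG.conn.dist_triangle (u := g₁ t') (v := g₂ t') (w := g₂ (t' + 1))
      have c1 : G.dist (g₁ (t' + 1)) (g₁ t') = G.dist (g₁ t') (g₁ (t' + 1)) := SimpleGraph.dist_comm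
      exact stay_near hG hw hlin h₁ h₂ h0 (by omega) ht' (by omega) (by omega) (by omega)
  intro t' htt ht'
  rcases le_or_gt (t' + 15 * w) l₁ with h3 | h3
  · have := key t' htt h3
    omega
  · have h4 := key (l₁ - 15 * w) (by omega) (by omega)
    have e2 := h₂ (l₁ - 15 * w) t' (by omega) (by omega)
    have t1 := hG.conn.dist_triangle (u := g₁ (l₁ - 15 * w)) (v := g₂ (l₁ - 15 * w)) (w := g₂ t')
    have := stay_near hG hw hlin h₁ h₂ h0 (c := l₁ - 15 * w) (t := t') (by omega) (by omega) (by omega) (by omega)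
      (by omega)
    omega

/-- heights of adjacent vertices differ by at most one -/
lemma height_adj {V : Type u} [Fintype V] {G : SimpleGraph V} (hc : G.Connected) (o : V) {x y : V}
    (h : G.Adj x y) : G.dist o x ≤ G.dist o y + 1 ∧ G.dist o y ≤ G.dist o x + 1 := by
  have h1 : G.dist x y = 1 := SimpleGraph.dist_eq_one_iff_adj.2 h
  have h2 : G.dist y x = 1 := SimpleGraph.dist_eq_one_iff_adj.2 h.symm
  have t1 := hc.dist_triangle (u := o) (v := x) (w := y)
  have t2 := hc.dist_triangle (u := o) (v := y) (w := x)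
  omega

theorem ring : RingStatement.{u} := by
  intro V _ G r w D γ a b hone hdiam hD ha hab hb
  obtain ⟨om1, -, -, om4⟩ := H28.omega_st.{u} line base V G r w D γ hone
  obtain ⟨hvt, hw, hlin, hg, hDw⟩ := hone
  have hc := hvt.conn
  have hw1 : 1 ≤ w := by omega
  set F : Set V := {x | ¬ (x ∈ om G γ w D ∧ a + 5 * w ≤ G.dist (γ 0) x ∧ G.dist (γ 0) x + 5 * w ≤ b)} with hF
  have hγ : ∀ t ≤ D, G.dist (γ 0) (γ t) = t := fun t ht => H28.geo0 hg ht
  have hγom : ∀ t, 15 * w ≤ t → t + 15 * w ≤ D → γ t ∈ om G γ w D := fun t h1 h2 =>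
    H28.mem_om.2 ⟨t, h1, h2, by simp⟩
  -- the two ends of the geodesic
  have hlow : Conn G F (γ 0) (γ a) := by
    refine H28.conn_geo hg (Nat.zero_le _) (by omega) ?_
    intro i _ hi hcon
    have := hγ i (by omega)
    omega
  have hup : Conn G F (γ b) (γ (b + 2 * w)) := by
    refine H28.conn_geo hg (by omega) (by omega) ?_
    intro i hi hi' hcon
    have := hγ i (by omega)
    omega
  suffices hgoal : Conn G F (γ a) (γ b) by
    obtain ⟨Q, hQ, hQF⟩ := hgoal.exists_path
    exact ⟨Q, hQ.1, hQ.2.1, hQ.2.2, fun x hx => hQF x hx⟩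
  by_contra hn
  -- (i)
  have hi : ∀ y, Conn G F (γ 0) y → y ∈ om G γ w D → G.dist (γ 0) y < a + 5 * w := by
    intro y hy hyom
    by_contra hcon
    have hyF : y ∈ F := hy.right_mem
    have hyb : b < G.dist (γ 0) y + 5 * w := by
      by_contra h
      exact hyF ⟨hyom, by omega, by omega⟩
    obtain ⟨x, x', hx, hx', hxW, hx'W, hadj⟩ := hy.symm.exit
      (W := {x | x ∈ om G γ w D ∧ b < G.dist (γ 0) x + 5 * w}) ⟨hyom, hyb⟩ (by
        rintro ⟨_, h⟩
        have := hγ 0 (by omega)
        omega)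
    obtain ⟨hxom, hxb⟩ := hxW
    have hhh := height_adj hc (γ 0) hadj
    have hx'om : x' ∉ om G γ w D := by
      intro h
      have h1 : ¬ b < G.dist (γ 0) x' + 5 * w := fun h2 => hx'W ⟨h, h2⟩
      exact hx'.right_mem ⟨h, by omega, by omega⟩
    have hbig : D < G.dist (γ 0) x + 20 * w := by
      by_contra h
      exact hx'om (om1 x hxom (by omega) (by omega) x' hadj)
    have hγb := hγ (b + 2 * w) (by omega)
    have hxD : G.dist (γ 0) x ≤ D := hdiam.1 _ _
    obtain ⟨l, hl1, hl2, hl3, hl4⟩ := om4 (b + 2 * w) D x hxom (γ (b + 2 * w)) (hγom _ (by omega) (by omega))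
      (by omega) (by omega) hxD (by omega)
    have hconn : Conn G F x (γ (b + 2 * w)) := by
      refine IsPB.conn ⟨hl1, hl2, hl3⟩ ?_
      intro v hv hcon'
      have := (hl4 v hv).2.1
      omega
    exact hn (hlow.symm.trans (hy.trans (hx.trans (hconn.trans hup.symm))))
  -- (ii)
  have hii : ∀ x x', Conn G F (γ 0) x' → x ∉ F → G.Adj x' x → G.dist x (γ (a + 5 * w)) ≤ 2 * w := by
    intro x x' hx' hxF hadj
    have hx : x ∈ om G γ w D ∧ a + 5 * w ≤ G.dist (γ 0) x ∧ G.dist (γ 0) x + 5 * w ≤ b := by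
      by_contra h
      exact hxF h
    obtain ⟨hxom, h1, h2⟩ := hx
    have hx'om := om1 x hxom (by omega) (by omega) x' hadj.symm
    have h3 := hi x' hx' hx'om
    have h4 := height_adj hc (γ 0) hadj
    obtain ⟨t, ht1, ht2, ht3⟩ := H28.mem_om.1 hxom
    have h5 := H28.height_close hc hg (by omega) ht3
    have h6 := geo_dist hg (i := t) (j := a + 5 * w) (by omega) (by omega)
    have h7 := hc.dist_triangle (u := x) (v := γ t) (w := γ (a + 5 * w))
    omega
  -- the centre
  set o := γ (a + 30 * w) with ho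
  have hoF : o ∉ F := by
    intro h
    have h1 := hγ (a + 30 * w) (by omega)
    rw [← ho] at h1
    exact h ⟨hγom _ (by omega) (by omega), by omega, by omega⟩
  have ho5 : G.dist o (γ (a + 5 * w)) = 25 * w := by
    have := geo_dist hg (i := a + 30 * w) (j := a + 5 * w) (by omega) (by omega)
    rw [ho]
    omega
  obtain ⟨z, hz, hzmax⟩ := Finset.exists_max_image (Finset.univ.filter (fun x => Conn G F (γ 0) x))
    (fun x => G.dist o x) ⟨γ 0, by simpa using Conn.refl hlow.left_mem⟩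
  have hzL : Conn G F (γ 0) z := (Finset.mem_filter.1 hz).2
  have hmax : ∀ x, Conn G F (γ 0) x → G.dist o x ≤ G.dist o z := fun x hx =>
    hzmax x (Finset.mem_filter.2 ⟨Finset.mem_univ _, hx⟩)
  have hρ : a + 30 * w ≤ G.dist o z := by
    have h1 := hmax (γ 0) (Conn.refl hlow.left_mem)
    have h2 : G.dist o (γ 0) = a + 30 * w := by
      rw [SimpleGraph.dist_comm]
      exact hγ _ (by omega)
    omega
  -- (iii)
  have hiii : ∀ g : ℕ → V, g 0 = z → (∀ k < 150 * w, G.Adj (g k) (g (k + 1))) →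
      (∀ k ≤ 150 * w, G.dist z (g k) ≤ 150 * w) → ∀ k ≤ 150 * w, Conn G F (γ 0) (g k) := by
    intro g hg0 hga hgd k
    induction k with
    | zero => intro _; rw [hg0]; exact hzL
    | succ k ih =>
      intro hk
      have h1 := ih (by omega)
      by_cases h2 : g (k + 1) ∈ F
      · exact h1.tail (hga k (by omega)) h2
      · exfalso
        have h3 := hii _ _ h1 h2 (hga k (by omega))
        have h4 := hgd (k + 1) hk
        have t1 := hc.dist_triangle (u := o) (v := γ (a + 5 * w)) (w := g (k + 1))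
        have t2 := hc.dist_triangle (u := o) (v := g (k + 1)) (w := z)
        have c1 : G.dist (γ (a + 5 * w)) (g (k + 1)) = G.dist (g (k + 1)) (γ (a + 5 * w)) := SimpleGraph.dist_comm
        have c2 : G.dist (g (k + 1)) z = G.dist z (g (k + 1)) := SimpleGraph.dist_comm
        omega
  obtain ⟨δ, hδz, hδ⟩ := (geo V G hvt D hdiam).2 (300 * w) (150 * w) hD (by omega) z
  have hδadj : ∀ k < 300 * w, G.Adj (δ k) (δ (k + 1)) := by
    intro k hk
    rw [← SimpleGraph.dist_eq_one_iff_adj, hδ k (k + 1) (by omega) (by omega)]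
    omega
  have hpL : Conn G F (γ 0) (δ (300 * w)) := by
    have := hiii (fun k => δ (150 * w + k)) (by simpa using hδz) (fun k hk => hδadj _ (by omega)) (by
      intro k hk
      have := geo_dist hδ (i := 150 * w) (j := 150 * w + k) (by omega) (by omega)
      rw [hδz] at this
      omega) (150 * w) le_rfl
    rwa [show 150 * w + 150 * w = 300 * w by omega] at this
  have hqL : Conn G F (γ 0) (δ 0) := by
    have := hiii (fun k => δ (150 * w - k)) (by simpa using hδz) (by
      intro k hk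
      have h1 := hδadj (150 * w - (k + 1)) (by omega)
      rw [show 150 * w - (k + 1) + 1 = 150 * w - k by omega] at h1
      exact h1.symm) (by
      intro k hk
      have := geo_dist hδ (i := 150 * w) (j := 150 * w - k) (by omega) (by omega)
      rw [hδz] at this
      omega) (150 * w) le_rfl
    rwa [show 150 * w - 150 * w = 0 by omega] at this
  have hpq : G.dist (δ 0) (δ (300 * w)) = 300 * w := by
    rw [hδ 0 (300 * w) (by omega) le_rfl]; omega
  have hpd : G.dist z (δ (300 * w)) = 150 * w := by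
    have := geo_dist hδ (i := 150 * w) (j := 300 * w) (by omega) (by omega)
    rw [hδz] at this
    omega
  have hqd : G.dist z (δ 0) = 150 * w := by
    have := geo_dist hδ (i := 150 * w) (j := 0) (by omega) (by omega)
    rw [hδz] at this
    omega
  -- (iv)
  have hiv : ∀ p, Conn G F (γ 0) p → G.dist z p = 150 * w → ∃ g : ℕ → V, ∃ l t : ℕ, g 0 = o ∧ g l = p ∧
      Geo G g l ∧ l ≤ G.dist o z ∧ G.dist o z ≤ l + 150 * w ∧ t ≤ l ∧ G.dist (g t) (γ (a + 5 * w)) ≤ 2 * w ∧
      23 * w ≤ t ∧ t ≤ 27 * w := by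
    intro p hp hzp
    obtain ⟨g, hg0, hgl, hgeo⟩ := exists_geo hc o p
    have hl1 : G.dist o p ≤ G.dist o z := hmax p hp
    have hl2 : G.dist o z ≤ G.dist o p + 150 * w := by
      have := hc.dist_triangle (u := o) (v := p) (w := z)
      have c1 : G.dist p z = G.dist z p := SimpleGraph.dist_comm
      omega
    have hadj : ∀ k < G.dist o p, G.Adj (g k) (g (k + 1)) := by
      intro k hk
      rw [← SimpleGraph.dist_eq_one_iff_adj, hgeo k (k + 1) (by omega) (by omega)]
      omega
    obtain ⟨t, ht, htF, htL⟩ : ∃ t < G.dist o p, g t ∉ F ∧ Conn G F (γ 0) (g (t + 1)) := by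
      by_contra hcon
      push Not at hcon
      have hall : ∀ k ≤ G.dist o p, Conn G F (γ 0) (g (G.dist o p - k)) := by
        intro k
        induction k with
        | zero => intro _; simpa [hgl] using hp
        | succ k ih =>
          intro hk
          have h1 := ih (by omega)
          have h2 := hcon (G.dist o p - (k + 1)) (by omega)
          have h3 := hadj (G.dist o p - (k + 1)) (by omega)
          rw [show G.dist o p - (k + 1) + 1 = G.dist o p - k by omega] at h2 h3
          by_cases h4 : g (G.dist o p - (k + 1)) ∈ F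
          · exact h1.tail h3.symm h4
          · exact absurd h1 (h2 h4)
      have := hall (G.dist o p) le_rfl
      rw [Nat.sub_self, hg0] at this
      exact hoF this.right_mem
    have h5 := hii _ _ htL htF (hadj t ht).symm
    have h6 : G.dist o (g t) = t := by
      rw [← hg0]
      exact H28.geo0 hgeo (by omega)
    have t1 := hc.dist_triangle (u := o) (v := γ (a + 5 * w)) (w := g t)
    have t2 := hc.dist_triangle (u := o) (v := g t) (w := γ (a + 5 * w))
    have c1 : G.dist (γ (a + 5 * w)) (g t) = G.dist (g t) (γ (a + 5 * w)) := SimpleGraph.dist_comm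
    exact ⟨g, G.dist o p, t, hg0, hgl, hgeo, hl1, hl2, by omega, h5, by omega, by omega⟩
  obtain ⟨gp, lp, tp, hp0, hpl, hpg, hp1, hp2, hp3, hp4, hp5, hp6⟩ := hiv _ hpL hpd
  obtain ⟨gq, lq, tq, hq0, hql, hqg, hq1, hq2, hq3, hq4, hq5, hq6⟩ := hiv _ hqL hqd
  -- the contradiction, for the two orders
  have fin : ∀ (gp gq : ℕ → V) (lp lq tp tq : ℕ), lp ≤ lq → gp 0 = o → gq 0 = o → Geo G gp lp → Geo G gq lq →
      lq ≤ G.dist o z → G.dist o z ≤ lp + 150 * w → tp ≤ lp → tq ≤ lq →
      G.dist (gp tp) (γ (a + 5 * w)) ≤ 2 * w → G.dist (gq tq) (γ (a + 5 * w)) ≤ 2 * w →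
      23 * w ≤ tp → tp ≤ 27 * w → 23 * w ≤ tq → tq ≤ 27 * w → G.dist (gp lp) (gq lq) ≤ 160 * w := by
    intro gp gq lp lq tp tq hll hp0 hq0 hpg hqg h1 h2 h3 h4 h5 h6 h7 h8 h9 h10
    obtain ⟨t, ht⟩ : ∃ t, t = min tp tq := ⟨_, rfl⟩
    have htp : t ≤ tp := ht ▸ min_le_left _ _
    have htq : t ≤ tq := ht ▸ min_le_right _ _
    have ht23 : 23 * w ≤ t := ht ▸ le_min h7 h9
    have hd : G.dist (gp t) (gq t) ≤ 15 * w := by
      have e1 := hpg t tp htp h3
      have e2 := hqg t tq htq h4
      have t1 := hc.dist_triangle (u := gp t) (v := gp tp) (w := gq t)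
      have t2 := hc.dist_triangle (u := gp tp) (v := γ (a + 5 * w)) (w := gq t)
      have t3 := hc.dist_triangle (u := γ (a + 5 * w)) (v := gq tq) (w := gq t)
      have c1 : G.dist (γ (a + 5 * w)) (gq tq) = G.dist (gq tq) (γ (a + 5 * w)) := SimpleGraph.dist_comm
      have c2 : G.dist (gq tq) (gq t) = G.dist (gq t) (gq tq) := SimpleGraph.dist_comm
      omega
    have h11 := stay V G hvt D hdiam r w hw hlin (by omega) gp gq lp lq t hpg hqg (hp0.trans hq0.symm) hll (by omega)
      (by omega) hd (lp - 4 * w) (by omega) (by omega)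
    have e1 := hpg (lp - 4 * w) lp (by omega) le_rfl
    have e2 := hqg (lp - 4 * w) lq (by omega) le_rfl
    have t1 := hc.dist_triangle (u := gp lp) (v := gp (lp - 4 * w)) (w := gq lq)
    have t2 := hc.dist_triangle (u := gp (lp - 4 * w)) (v := gq (lp - 4 * w)) (w := gq lq)
    have c1 : G.dist (gp lp) (gp (lp - 4 * w)) = G.dist (gp (lp - 4 * w)) (gp lp) := SimpleGraph.dist_comm
    omega
  rcases le_total lp lq with hll | hll
  · have := fin gp gq lp lq tp tq hll hp0 hq0 hpg hqg hq1 hp2 hp3 hq3 hp4 hq4 hp5 hp6 hq5 hq6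
    rw [hpl, hql, SimpleGraph.dist_comm, hpq] at this
    omega
  · have := fin gq gp lq lp tq tp hll hq0 hp0 hqg hpg hp1 hq2 hq3 hp3 hq4 hp4 hq5 hq6 hp5 hp6
    rw [hpl, hql, hpq] at this
    omega

end Pool.Agent.Lib.MP_688fd0_co.LIN.H89
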